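import Mathlib

set_option autoImplicit false

open Cardinal Set

/-!
Tree forcings on `2^{<κ}`. The linear order `K` stands for the set of ordinals below `κ`
(it is `κ.ord.ToType` in the theorem), so that the cardinality of `K` is `κ`.
-/

namespace Pool.Agent.H587Z.Tree

universe u

/-- An element of `2^{<κ}`: a length `len < κ` and a function from the ordinals below `len`
to `2`. -/
structure Node (K : Type u) [LinearOrder K] where
  len : K
  bit : Iio len → Bool

variable {K : Type u} [LinearOrder K]

/-- `s` is an initial segment of `t`. -/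
def Node.Le (s t : Node K) : Prop :=
  ∃ h : s.len ≤ t.len, ∀ i : Iio s.len, s.bit i = t.bit ⟨i, lt_of_lt_of_le i.2 h⟩

/-- `u` is `t` followed by the bit `b`: it extends `t`, its length is the successor of the length
of `t`, and its last value is `b`. -/
def Node.IsChild (t : Node K) (b : Bool) (u : Node K) : Prop :=
  t.Le u ∧ t.len ⋖ u.len ∧ ∀ h : t.len < u.len, u.bit ⟨t.len, h⟩ = b

/-- A tree is a set of nodes closed under initial segments. -/
def IsTree (T : Set (Node K)) : Prop := ∀ t ∈ T, ∀ s : Node K, s.Le t → s ∈ T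

/-- `t` is splitting in `T`: both one-step extensions of `t` are in `T`. -/
def IsSplitting (T : Set (Node K)) (t : Node K) : Prop := ∀ b : Bool, ∃ u ∈ T, t.IsChild b u

/-- `T_t`, the set of nodes of `T` comparable with `t`. -/
def cone (T : Set (Node K)) (t : Node K) : Set (Node K) := {s | s ∈ T ∧ (s.Le t ∨ t.Le s)}

/-- A tree forcing: a set of nonempty trees, ordered by inclusion, in which every node extends to
a splitting node, and which contains `T_t` along with `T`. -/
structure IsTreeForcing (P : Set (Set (Node K))) : Prop where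
  nonempty : ∀ T ∈ P, T.Nonempty
  tree : ∀ T ∈ P, IsTree T
  split : ∀ T ∈ P, ∀ t ∈ T, ∃ s ∈ T, t.Le s ∧ IsSplitting T s
  cone_mem : ∀ T ∈ P, ∀ t ∈ T, cone T t ∈ P

/-- `<κ`-closed: every descending sequence of conditions of nonzero length `γ < κ` has a lower
bound. -/
def IsClosedForcing (P : Set (Set (Node K))) : Prop :=
  ∀ (γ : K) (p : Iio γ → Set (Node K)), (Iio γ).Nonempty → (∀ i, p i ∈ P) →
    (∀ i j, i ≤ j → p j ⊆ p i) → ∃ S ∈ P, ∀ i, S ⊆ p i

/-- `κ⁺`-cc: every antichain (set of pairwise incompatible conditions) has size at most `κ`. -/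
def IsCC (P : Set (Set (Node K))) : Prop :=
  ∀ A ⊆ P, (A.Pairwise fun S T => ¬ ∃ R ∈ P, R ⊆ S ∧ R ⊆ T) → #A ≤ #K

/-- A `P`-name `x` for an element of `κ^κ`, given by its forcing relation: `forces T α β` says
that the condition `T` forces `x(α) = β`. The relation passes to stronger conditions, no
condition forces two values, and for each `α` the conditions deciding `x(α)` are dense. -/
structure FunName (P : Set (Set (Node K))) where
  forces : Set (Node K) → K → K → Prop
  mono : ∀ T ∈ P, ∀ S ∈ P, S ⊆ T → ∀ α β, forces T α β → forces S α β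
  unique : ∀ T ∈ P, ∀ α β β', forces T α β → forces T α β' → β = β'
  dense : ∀ T ∈ P, ∀ α, ∃ S ∈ P, S ⊆ T ∧ ∃ β, forces S α β

/-- `κ^κ`-bounding: for every name `x` for an element of `κ^κ`, densely many conditions `S` force
`x(α) < z(α)` for all `α`, for some `z ∈ κ^κ` of the ground model; that is, every value of `x(α)`
forced by an extension of `S` is below `z(α)`. -/
def IsBounding (P : Set (Set (Node K))) : Prop :=
  ∀ x : FunName P, ∀ T ∈ P, ∃ S ∈ P, S ⊆ T ∧ ∃ z : K → K,
    ∀ α β, ∀ R ∈ P, R ⊆ S → x.forces R α β → β < z α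

end Pool.Agent.H587Z.Tree
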