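import Mathlib
import Pool.Agent.H587Z.Tree.Defs

set_option autoImplicit false

open Cardinal Set

namespace Pool.Agent.H587Z.Tree

universe u

variable {K : Type u} [LinearOrder K]

lemma Node.le_refl (s : Node K) : s.Le s := ⟨le_rfl, fun _ => rfl⟩

lemma Node.Le.len_le {s t : Node K} (h : s.Le t) : s.len ≤ t.len := h.1

lemma Node.Le.trans {s t w : Node K} (h : s.Le t) (h' : t.Le w) : s.Le w := by
  obtain ⟨a, ha⟩ := h
  obtain ⟨b, hb⟩ := h'
  exact ⟨a.trans b, fun i => (ha i).trans (hb _)⟩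

lemma Node.Le.eq {s t : Node K} (h : s.Le t) (h' : t.len ≤ s.len) : s = t := by
  obtain ⟨a, ha⟩ := h
  obtain ⟨sl, sb⟩ := s
  obtain ⟨tl, tb⟩ := t
  obtain rfl : sl = tl := le_antisymm a h'
  congr
  funext i
  exact ha i

lemma Node.Le.of_le {s t w : Node K} (h : s.Le w) (h' : t.Le w) (hl : s.len ≤ t.len) : s.Le t := by
  obtain ⟨a, ha⟩ := h
  obtain ⟨b, hb⟩ := h'
  exact ⟨hl, fun i => (ha i).trans (hb ⟨i, lt_of_lt_of_le i.2 hl⟩).symm⟩

/-- restriction -/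
def Node.res (t : Node K) (α : K) (h : α ≤ t.len) : Node K :=
  ⟨α, fun i => t.bit ⟨i, lt_of_lt_of_le i.2 h⟩⟩

lemma Node.res_le (t : Node K) (α : K) (h : α ≤ t.len) : (t.res α h).Le t := ⟨h, fun _ => rfl⟩

lemma child_not_both {s t a b : Node K} (ha : s.IsChild false a) (hb : s.IsChild true b)
    (h1 : a.Le t) (h2 : b.Le t) : False := by
  obtain ⟨l1, e1⟩ := h1
  obtain ⟨l2, e2⟩ := h2
  have x1 := ha.2.2 ha.2.1.lt
  have x2 := hb.2.2 hb.2.1.lt
  rw [e1] at x1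
  rw [e2] at x2
  simp [x1] at x2

lemma le_of_split {S : Set (Node K)} {s t : Node K} (hs : IsSplitting S s)
    (h : ∀ w ∈ S, w.Le t ∨ t.Le w) : t.Le s := by
  obtain ⟨a, haS, ha⟩ := hs false
  obtain ⟨b, hbS, hb⟩ := hs true
  by_cases hl : t.len ≤ s.len
  · rcases h a haS with h1 | h1
    · exact absurd (h1.len_le.trans hl) (not_le.2 ha.2.1.lt)
    · exact h1.of_le ha.1 hl
  · exfalso
    have hl' : s.len < t.len := not_le.1 hl
    have key : ∀ c w, w ∈ S → s.IsChild c w → w.Le t := by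
      intro c w hw hc
      rcases h w hw with h1 | h1
      · exact h1
      · have := h1.eq (hc.2.1.ge_of_gt hl')
        rw [this]
        exact w.le_refl
    exact child_not_both ha hb (key _ a haS ha) (key _ b hbS hb)

lemma exists_rec [WellFoundedLT K] {X : Type u} [Nonempty X] (Q : K → X → Prop) (R : X → X → Prop)
    (step : ∀ (i : K) (u : Iio i → X), (∀ j, Q j.1 (u j)) → (∀ j k, j < k → R (u j) (u k)) →
      ∃ x, Q i x ∧ ∀ j, R (u j) x) :
    ∃ u : K → X, (∀ i, Q i (u i)) ∧ ∀ j k, j < k → R (u j) (u k) := by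
  classical
  let F : ∀ i : K, (∀ j, j < i → X) → X := fun i prev =>
    Classical.epsilon (fun x => Q i x ∧ ∀ j : Iio i, R (prev j.1 j.2) x)
  let u : K → X := (wellFounded_lt (α := K)).fix F
  have hu : ∀ i, u i = Classical.epsilon (fun x => Q i x ∧ ∀ j : Iio i, R (u j.1) x) :=
    fun i => (wellFounded_lt (α := K)).fix_eq F i
  have key : ∀ i, Q i (u i) ∧ ∀ j : Iio i, R (u j.1) (u i) := by
    intro i
    induction i using WellFoundedLT.induction with
    | ind i ih =>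
      have h := step i (fun j => u j.1) (fun j => (ih j.1 j.2).1)
        (fun j k hjk => (ih k.1 k.2).2 ⟨j.1, hjk⟩)
      rw [hu i]
      exact Classical.epsilon_spec h
  exact ⟨u, fun i => (key i).1, fun j k h => (key k).2 ⟨j, h⟩⟩

variable {P : Set (Set (Node K))}

lemma chain_bound (hP : IsTreeForcing P) (hc : IsClosedForcing P) {T : Set (Node K)} (hT : T ∈ P)
    {t : Node K} (ht : t ∈ T) {γ : K} (u : Iio γ → Node K) (h1 : ∀ i, u i ∈ T)
    (h2 : ∀ i, t.Le (u i)) (h3 : ∀ i j, i < j → (u i).Le (u j)) :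
    ∃ w ∈ T, t.Le w ∧ ∀ i, (u i).Le w := by
  rcases (Iio γ).eq_empty_or_nonempty with he | hne
  · refine ⟨t, ht, t.le_refl, fun i => ?_⟩
    exact (Set.eq_empty_iff_forall_notMem.1 he i.1 i.2).elim
  obtain ⟨S, hS, hSi⟩ := hc γ (fun i => cone T (u i)) hne (fun i => hP.cone_mem T hT _ (h1 i)) (by
    intro i j hij s hs
    have hle : (u i).Le (u j) := by
      rcases hij.eq_or_lt with rfl | h
      · exact Node.le_refl _
      · exact h3 i j h
    refine ⟨hs.1, ?_⟩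
    rcases hs.2 with h | h
    · rcases le_total s.len (u i).len with h' | h'
      · exact Or.inl (h.of_le hle h')
      · exact Or.inr (hle.of_le h h')
    · exact Or.inr (hle.trans h))
  obtain ⟨s0, hs0⟩ := hP.nonempty S hS
  obtain ⟨s, hs, -, hsp⟩ := hP.split S hS s0 hs0
  obtain ⟨i0, hi0⟩ := hne
  have key : ∀ i, (u i).Le s := fun i => le_of_split hsp (fun w hw => (hSi i hw).2)
  exact ⟨s, (hSi ⟨i0, hi0⟩ hs).1, (h2 ⟨i0, hi0⟩).trans (key _), key⟩

lemma tall [WellFoundedLT K] (hP : IsTreeForcing P) (hc : IsClosedForcing P) {T : Set (Node K)}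
    (hT : T ∈ P) {t : Node K} (ht : t ∈ T) (α : K) : ∃ w ∈ T, t.Le w ∧ α ≤ w.len := by
  have : Nonempty (Node K) := ⟨t⟩
  obtain ⟨u, hu, -⟩ := exists_rec (K := K) (fun i x => x ∈ T ∧ t.Le x ∧ i < x.len) Node.Le (by
    intro i u h1 h2
    obtain ⟨w, hw, htw, hwu⟩ := chain_bound hP hc hT ht u (fun j => (h1 j).1)
      (fun j => (h1 j).2.1) h2
    have hi : i ≤ w.len := by
      by_contra hlt
      have hlt' : w.len < i := not_le.1 hlt
      exact absurd ((h1 ⟨w.len, hlt'⟩).2.2.trans_le (hwu ⟨w.len, hlt'⟩).len_le) (lt_irrefl _)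
    obtain ⟨s, hs, hws, hsp⟩ := hP.split T hT w hw
    obtain ⟨a, ha, hca⟩ := hsp false
    have hwa : w.Le a := hws.trans hca.1
    exact ⟨a, ⟨ha, htw.trans hwa, hi.trans_lt (hws.len_le.trans_lt hca.2.1.lt)⟩,
      fun j => (hwu j).trans hwa⟩)
  exact ⟨u α, (hu α).1, (hu α).2.1, (hu α).2.2.le⟩

/-- below a chain of short nodes there is a node of the prescribed length -/
lemma chain_level [WellFoundedLT K] (hP : IsTreeForcing P) (hc : IsClosedForcing P)
    {T : Set (Node K)} (hT : T ∈ P) {γ : K} (u : Iio γ → Node K) (h1 : ∀ i, u i ∈ T)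
    (h3 : ∀ i j, i < j → (u i).Le (u j)) (α : K) (h4 : ∀ i, (u i).len ≤ α) :
    ∃ w ∈ T, w.len = α ∧ ∀ i, (u i).Le w := by
  obtain ⟨t0, ht0⟩ := hP.nonempty T hT
  obtain ⟨m, hm⟩ : ∃ m : K, ∀ a, m ≤ a := by
    refine ⟨(wellFounded_lt (α := K)).min univ ⟨α, mem_univ _⟩, fun a => ?_⟩
    exact not_lt.1 ((wellFounded_lt (α := K)).not_lt_min univ (mem_univ a))
  have hroot : ∀ x : Node K, (t0.res m (hm _)).Le x :=
    fun x => ⟨hm _, fun i => absurd i.2 (not_lt.2 (hm _))⟩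
  obtain ⟨w, hw, -, hwu⟩ := chain_bound hP hc hT
    (hP.tree T hT t0 ht0 _ (t0.res_le m (hm _))) u h1 (fun i => hroot _) h3
  obtain ⟨v, hv, hwv, hα⟩ := tall hP hc hT hw α
  exact ⟨v.res α hα, hP.tree T hT v hv _ (v.res_le α hα), rfl,
    fun i => ((hwu i).trans hwv).of_le (v.res_le α hα) (h4 i)⟩

lemma big_level [WellFoundedLT K] (hP : IsTreeForcing P) (hc : IsClosedForcing P)
    (hb : ∀ s : Set K, #s < #K → ∃ b, ∀ a ∈ s, a < b) (hI : ∀ a : K, #(Iio a) < #K)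
    (hγ : ∃ γ : K, ∀ c < #K, c ≤ #(Iio γ)) {T : Set (Node K)} (hT : T ∈ P)
    (hsmall : ∀ α, #{t : Node K | t ∈ T ∧ t.len = α} < #K) : False := by
  obtain ⟨γ, hγ⟩ := hγ
  have hg : ∀ α : K, ∃ β : K, ∀ t ∈ T, t.len = α → ∃ s a b : Node K, t.Le s ∧ a ∈ T ∧ b ∈ T ∧
      s.IsChild false a ∧ s.IsChild true b ∧ a.len ≤ β ∧ b.len ≤ β := by
    intro α
    have h1 : ∀ t : {t : Node K | t ∈ T ∧ t.len = α}, ∃ β : K, ∃ s a b : Node K,
        t.1.Le s ∧ a ∈ T ∧ b ∈ T ∧ s.IsChild false a ∧ s.IsChild true b ∧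
          a.len ≤ β ∧ b.len ≤ β := by
      intro t
      obtain ⟨s, -, hts, hsp⟩ := hP.split T hT t.1 t.2.1
      obtain ⟨a, ha, hca⟩ := hsp false
      obtain ⟨b, hb', hcb⟩ := hsp true
      exact ⟨max a.len b.len, s, a, b, hts, ha, hb', hca, hcb, le_max_left _ _, le_max_right _ _⟩
    choose f hf using h1
    obtain ⟨β, hβ⟩ := hb (range f) (mk_range_le.trans_lt (hsmall α))
    refine ⟨β, fun t ht hl => ?_⟩
    obtain ⟨s, a, b, x1, x2, x3, x4, x5, x6, x7⟩ := hf ⟨t, ht, hl⟩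
    have := (hβ _ (mem_range_self ⟨t, ht, hl⟩)).le
    exact ⟨s, a, b, x1, x2, x3, x4, x5, x6.trans this, x7.trans this⟩
  choose g hg using hg
  have : Nonempty K := ⟨γ⟩
  obtain ⟨δ, -, hδ⟩ := exists_rec (K := K) (X := K) (fun _ _ => True) (fun a b => g a < b) (by
    intro i u _ _
    obtain ⟨b, hb'⟩ := hb (range (fun j => g (u j))) (mk_range_le.trans_lt (hI i))
    exact ⟨b, trivial, fun j => hb' _ (mem_range_self j)⟩)
  obtain ⟨e⟩ : Nonempty ({t : Node K | t ∈ T ∧ t.len = δ γ} ↪ Iio γ) :=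
    (Cardinal.le_def _ _).1 (hγ _ (hsmall (δ γ)))
  obtain ⟨t0, ht0⟩ := hP.nonempty T hT
  have : Nonempty (Node K) := ⟨t0⟩
  obtain ⟨u, hu, hmono⟩ := exists_rec (K := K)
    (fun i x => x ∈ T ∧ x.len ≤ g (δ i) ∧
      ∀ t : {t : Node K | t ∈ T ∧ t.len = δ γ}, (e t : K) = i → ¬ x.Le t.1) Node.Le (by
    intro i u h1 h2
    obtain ⟨w, hw, hwl, hwu⟩ := chain_level hP hc hT u (fun j => (h1 j).1) h2 (δ i)
      (fun j => (h1 j).2.1.trans (hδ j i j.2).le)
    obtain ⟨s, a, b, x1, x2, x3, x4, x5, x6, x7⟩ := hg (δ i) w hw hwl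
    by_cases hcase : ∃ t : {t : Node K | t ∈ T ∧ t.len = δ γ}, (e t : K) = i ∧ a.Le t.1
    · obtain ⟨t, ht, hat⟩ := hcase
      refine ⟨b, ⟨x3, x7, fun t' ht' hbt => ?_⟩, fun j => (hwu j).trans (x1.trans x5.1)⟩
      have : t' = t := e.injective (Subtype.ext (ht'.trans ht.symm))
      rw [this] at hbt
      exact child_not_both x4 x5 hat hbt
    · exact ⟨a, ⟨x2, x6, fun t ht hat => hcase ⟨t, ht, hat⟩⟩,
        fun j => (hwu j).trans (x1.trans x4.1)⟩)
  obtain ⟨w, hw, hwl, hwu⟩ := chain_level hP hc hT (fun j : Iio γ => u j) (fun j => (hu j).1)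
    (fun i j h => hmono i j h) (δ γ) (fun j => (hu j).2.1.trans (hδ j γ j.2).le)
  exact (hu (e ⟨w, hw, hwl⟩)).2.2 ⟨w, hw, hwl⟩ rfl (hwu _)

lemma eq_of_comp (hP : IsTreeForcing P) {R : Set (Node K)} (hR : R ∈ P) {t t' : Node K}
    (hl : t.len = t'.len) (h : ∀ s ∈ R, s.Le t ∨ t.Le s) (h' : ∀ s ∈ R, s.Le t' ∨ t'.Le s) :
    t = t' := by
  obtain ⟨s0, hs0⟩ := hP.nonempty R hR
  obtain ⟨s, -, -, hsp⟩ := hP.split R hR s0 hs0
  exact ((le_of_split hsp h).of_le (le_of_split hsp h') hl.le).eq hl.ge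

theorem main [WellFoundedLT K]
    (hb : ∀ s : Set K, #s < #K → ∃ b, ∀ a ∈ s, a < b) (hI : ∀ a : K, #(Iio a) < #K)
    (hγ : ∃ γ : K, ∀ c < #K, c ≤ #(Iio γ)) (hne : P.Nonempty) (hP : IsTreeForcing P)
    (hc : IsClosedForcing P) (hbd : IsBounding P) (hcc : IsCC P) : False := by
  let N : K → Set (Node K) := fun α => {t | t.len = α ∧ ∃ T ∈ P, t ∈ T}
  have hN : ∀ α, Nonempty (N α ↪ K) := by
    intro α
    rw [← Cardinal.le_def]
    have h1 : ∀ t : N α, ∃ T ∈ P, t.1 ∈ T := fun t => t.2.2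
    choose f hf1 hf2 using h1
    have hinc : ∀ t t' : N α, (∃ R ∈ P, R ⊆ cone (f t) t ∧ R ⊆ cone (f t') t') → t = t' := by
      rintro t t' ⟨R, hR, a, b⟩
      exact Subtype.ext (eq_of_comp hP hR (t.2.1.trans t'.2.1.symm) (fun s hs => (a hs).2)
        (fun s hs => (b hs).2))
    have hinj : Function.Injective (fun t : N α => cone (f t) t) := by
      intro t t' h
      exact hinc t t' ⟨_, hP.cone_mem _ (hf1 t) _ (hf2 t), subset_rfl, subset_of_eq h⟩
    rw [← mk_range_eq _ hinj]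
    apply hcc
    · rintro _ ⟨t, rfl⟩
      exact hP.cone_mem _ (hf1 t) _ (hf2 t)
    · rintro _ ⟨t, rfl⟩ _ ⟨t', rfl⟩ hne' h
      exact hne' (by rw [hinc t t' h])
  let idx : ∀ α, N α ↪ K := fun α => (hN α).some
  let x : FunName P :=
    { forces := fun T α β => ∃ t : N α, idx α t = β ∧ ∀ s ∈ T, s.Le t.1 ∨ t.1.Le s
      mono := by
        rintro T - S - hST α β ⟨t, ht, h⟩
        exact ⟨t, ht, fun s hs => h s (hST hs)⟩
      unique := by
        rintro T hT α β β' ⟨t, rfl, h⟩ ⟨t', rfl, h'⟩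
        rw [Subtype.ext (eq_of_comp hP hT (t.2.1.trans t'.2.1.symm) h h')]
      dense := by
        intro T hT α
        obtain ⟨t0, ht0⟩ := hP.nonempty T hT
        obtain ⟨v, hv, -, hα⟩ := tall hP hc hT ht0 α
        have hm := hP.tree T hT v hv _ (v.res_le α hα)
        exact ⟨_, hP.cone_mem T hT _ hm, fun s hs => hs.1, _,
          ⟨v.res α hα, rfl, T, hT, hm⟩, rfl, fun s hs => hs.2⟩ }
  obtain ⟨T, hT⟩ := hne
  obtain ⟨S, hS, -, z, hz⟩ := hbd x T hT
  refine big_level hP hc hb hI hγ hS (fun α => lt_of_le_of_lt ?_ (hI (z α)))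
  refine mk_le_of_injective (f := fun t => ⟨idx α ⟨t.1, t.2.2, S, hS, t.2.1⟩,
    hz α _ _ (hP.cone_mem S hS _ t.2.1) (fun s hs => hs.1) ⟨_, rfl, fun s hs => hs.2⟩⟩) ?_
  intro t t' h
  have := (idx α).injective (congrArg Subtype.val h)
  have h2 : (t : Node K) = t' := congrArg (fun y : N α => y.1) this
  exact Subtype.ext h2

theorem succ_case (μ : Cardinal.{u}) (hμ : ℵ₀ ≤ μ)
    (P : Set (Set (Node (Order.succ μ).ord.ToType))) (hne : P.Nonempty) (hP : IsTreeForcing P)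
    (hc : IsClosedForcing P) (hbd : IsBounding P) (hcc : IsCC P) : False := by
  have hreg : (Order.succ μ).IsRegular := isRegular_succ hμ
  have hb : ∀ s : Set (Order.succ μ).ord.ToType, #s < #(Order.succ μ).ord.ToType →
      ∃ b, ∀ a ∈ s, a < b := by
    intro s hs
    rw [mk_ord_toType] at hs
    by_contra hcon
    push Not at hcon
    have h1 : IsCofinal s := fun b => by
      obtain ⟨a, ha, hab⟩ := hcon b
      exact ⟨a, ha, hab⟩
    have h2 := Order.cof_le h1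
    rw [Ordinal.cof_toType, hreg.cof_ord] at h2
    exact absurd hs (not_lt.2 h2)
  refine main hb ?_ ?_ hne hP hc hbd hcc
  · intro a
    rw [mk_ord_toType]
    simpa using mk_Iio_lt a
  · have h1 : μ ≤ #(Order.succ μ).ord.ToType := by
      rw [mk_ord_toType]
      exact Order.le_succ μ
    obtain ⟨s, hs⟩ := Cardinal.le_mk_iff_exists_set.1 h1
    obtain ⟨b, hb'⟩ := hb s (by rw [hs, mk_ord_toType]; exact Order.lt_succ μ)
    refine ⟨b, fun c hc' => ?_⟩
    rw [mk_ord_toType, Order.lt_succ_iff] at hc'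
    have h3 : s ⊆ Iio b := fun a ha => hb' a ha
    exact hc'.trans (hs.symm.le.trans (mk_le_mk_of_subset h3))

end Pool.Agent.H587Z.Tree
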